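import Pool.Agent.V5helper10.GK.Stm
import Pool.Agent.V5helper10.KSC.All

/-!
# GK, job K3T: the K3 structure in coordinates
-/

set_option linter.unusedSectionVars false

open CategoryTheory AlgebraicGeometry TensorProduct

universe u

namespace Pool.Agent.V5helper59.GK

open Module Matrix ComplexConjugate
open Pool.Agent.H914 Pool.Agent.H914.VarClass Pool.Agent.H914.VarClass.Obj
  Pool.Agent.H914.WeilCohomology
open Pool.Agent.Y133.Half Pool.Agent.Y121.AH
open Pool.Agent.N996.BP Pool.Agent.N996.BP.Geo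
open Pool.Agent.V5helper10.KSC
open Pool.Agent.V5helper77.KSC (cup_tmul cup_Fx crd_two crd_one cup_two sig_sig)
open Pool.Agent.W544.K3 (K3Type bil app cj)
open Pool.Agent.Y133.Per (DeRham tm twoPiI baseTr_tm tm_mul twoPiI_ne)
open Pool.Agent.V5helper10.GK (QA S_K3T)

variable {k : Type u} [Field k] {𝒱 : VarClass k} {ops : CycleOps 𝒱} {T : HodgeTheory ops}
  {X : 𝒱.Obj} {Dv : T.W.H X} {r : ℕ}

lemma bil_def (B : Matrix (Fin r) (Fin r) ℚ) (u v : Fin r → ℂ) :
    bil B u v = ∑ i, ∑ j, u i * (B i j : ℂ) * v j := rfl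

/-- The class with given coordinates. -/
noncomputable def cv (e : Fin r → T.W.H X) (v : Fin r → ℂ) : ℂ ⊗[T.W.K] T.W.H X :=
  ∑ i, (v i) ⊗ₜ[T.W.K] (e i)

lemma cv_cup {e : Fin r → T.W.H X} {B : Matrix (Fin r) (Fin r) ℚ}
    (hB : ∀ i j, ((B i j : ℚ) : T.W.K) = T.W.tr X (e i * e j)) (u v : Fin r → ℂ) :
    (cupF T.W X).baseChange ℂ (cv e u) (cv e v) = bil B u v := by
  have h1 : ∀ z, (cupF T.W X).baseChange ℂ (cv e u) z =
      ∑ i, (cupF T.W X).baseChange ℂ ((u i) ⊗ₜ[T.W.K] (e i)) z := fun z => by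
    rw [cv, map_sum, LinearMap.sum_apply]
  rw [h1, bil_def]
  refine Finset.sum_congr rfl fun i _ => ?_
  rw [cv, map_sum]
  refine Finset.sum_congr rfl fun j _ => ?_
  rw [cup_tmul, ← hB, map_ratCast]
  ring

lemma cv_sig (e : Fin r → T.W.H X) (v : Fin r → ℂ) :
    sig (tauT T) (cv e v) = cv e (cj v) := by
  rw [cv, cv, map_sum]
  refine Finset.sum_congr rfl fun i _ => ?_
  rw [sig_tmul]
  rfl

lemma cv_mem {e : Fin r → T.W.H X} {S : Submodule T.W.K (T.W.H X)} (hS : ∀ i, e i ∈ S)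
    (v : Fin r → ℂ) : cv e v ∈ S.baseChange ℂ :=
  Submodule.sum_mem _ fun i _ => Submodule.tmul_mem_baseChange_of_mem _ (hS i)

lemma exists_cv {e : Fin r → T.W.H X} {S : Submodule T.W.K (T.W.H X)}
    (he : Submodule.span T.W.K (Set.range e) = S) {x : ℂ ⊗[T.W.K] T.W.H X}
    (hx : x ∈ S.baseChange ℂ) : ∃ v, cv e v = x := by
  refine base_induction (P := fun x => ∃ v, cv e v = x) ?_ ?_ ?_ hx
  · refine ⟨0, ?_⟩
    rw [cv]
    exact Finset.sum_eq_zero fun i _ => by rw [Pi.zero_apply, TensorProduct.zero_tmul]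
  · rintro a b ⟨v, rfl⟩ ⟨w, rfl⟩
    refine ⟨v + w, ?_⟩
    rw [cv, cv, cv, ← Finset.sum_add_distrib]
    exact Finset.sum_congr rfl fun i _ => by rw [Pi.add_apply, TensorProduct.add_tmul]
  · intro l a ha
    rw [← he] at ha
    obtain ⟨c, rfl⟩ := (Submodule.mem_span_range_iff_exists_fun T.W.K).1 ha
    refine ⟨fun i => algebraMap T.W.K ℂ (c i) * l, ?_⟩
    rw [cv, TensorProduct.tmul_sum]
    refine Finset.sum_congr rfl fun i _ => ?_
    rw [← Algebra.smul_def, TensorProduct.smul_tmul]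

lemma cv_inj {e : Fin r → T.W.H X} (he : LinearIndependent T.W.K e) {v : Fin r → ℂ}
    (h : cv e v = 0) : v = 0 := by
  funext i
  obtain ⟨g, hg⟩ := LinearMap.exists_extend ((Basis.span he).coord i)
  have hge : ∀ j, g (e j) = if j = i then 1 else 0 := by
    intro j
    have h1 : g (e j) = (Basis.span he).coord i (Basis.span he j) := by
      rw [← hg, LinearMap.comp_apply, Submodule.subtype_apply, Basis.span_apply]
    rw [h1, Basis.coord_apply, Basis.repr_self, Finsupp.single_apply]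
  have h2 := congrArg (formBase ℂ g) h
  rw [cv, map_sum, map_zero] at h2
  simp only [formBase_tmul, hge] at h2
  rw [Finset.sum_eq_single i] at h2
  · rw [if_pos rfl, map_one, mul_one] at h2
    exact h2
  · intro j _ hj
    rw [if_neg hj, map_zero, mul_zero]
  · intro h; exact absurd (Finset.mem_univ _) h

lemma cup_sig (x y : ℂ ⊗[T.W.K] T.W.H X) :
    (cupF T.W X).baseChange ℂ (sig (tauT T) x) (sig (tauT T) y) =
      conj ((cupF T.W X).baseChange ℂ x y) := by
  refine tmul_ind (P := fun x => (cupF T.W X).baseChange ℂ (sig (tauT T) x) (sig (tauT T) y) =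
      conj ((cupF T.W X).baseChange ℂ x y)) ?_ ?_ x
  · intro z a
    refine tmul_ind (P := fun y => (cupF T.W X).baseChange ℂ (sig (tauT T) (z ⊗ₜ[T.W.K] a))
      (sig (tauT T) y) = conj ((cupF T.W X).baseChange ℂ (z ⊗ₜ[T.W.K] a) y)) ?_ ?_ y
    · intro w b
      have h1 : algebraMap T.W.K ℂ (T.W.tr X (a * b)) =
          (starRingEnd ℂ) (algebraMap T.W.K ℂ (T.W.tr X (a * b))) :=
        ((tauT T).commutes (T.W.tr X (a * b))).symm
      rw [sig_tmul, sig_tmul, cup_tmul, cup_tmul, tauT_apply, tauT_apply]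
      generalize algebraMap T.W.K ℂ (T.W.tr X (a * b)) = α at h1
      rw [map_mul, map_mul, ← h1]
    · intro y y' hy hy'
      simp only [map_add, hy, hy']
  · intro x x' hx hx'
    simp only [map_add, LinearMap.add_apply, hx, hx']

lemma cup_add_left (x x' y : ℂ ⊗[T.W.K] T.W.H X) : (cupF T.W X).baseChange ℂ (x + x') y =
    (cupF T.W X).baseChange ℂ x y + (cupF T.W X).baseChange ℂ x' y := by
  rw [map_add, LinearMap.add_apply]

lemma cup_smul_left (c : ℂ) (x y : ℂ ⊗[T.W.K] T.W.H X) : (cupF T.W X).baseChange ℂ (c • x) y =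
    c * (cupF T.W X).baseChange ℂ x y := by
  rw [map_smul, LinearMap.smul_apply, smul_eq_mul]

/-- The holomorphic two-form is transcendental. -/
lemma hol_mem (hK : K3G T X Dv) {x : ℂ ⊗[T.W.K] T.W.H X} (hx : x ∈ Fx T X (2, 0)) :
    x ∈ (TrA T X).baseChange ℂ := by
  obtain ⟨ι, _, _, ⟨M⟩⟩ := Pool.Agent.V5helper10.KSC.All.h_dat T X Dv hK
  obtain ⟨hxo, hxp⟩ := crd_two M.hB (by norm_num) hx
  rw [crd_sum M.e x]
  refine Submodule.sum_mem _ fun i _ => ?_
  by_cases hi : i ∈ M.tt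
  · exact Submodule.smul_mem _ _ (Submodule.tmul_mem_baseChange_of_mem _ (M.hB.tra i hi))
  · have h0 : crd M.e x i = 0 := by
      by_cases hio : i = M.o
      · rw [hio, hxo]
      by_cases hip : i = M.p
      · rw [hip, hxp]
      have h1 : (1 : ℂ) ⊗ₜ[T.W.K] M.e i ∈ Fx T X (1, 1) := (M.hB.hdg i hi hio hip).2
      have h2 := cup_Fx hK hx h1 (by norm_num)
      rw [cup_two M.hB hxo hxp, crd_one, Finset.sum_eq_single i] at h2
      · rw [Pi.single_eq_same, mul_one] at h2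
        refine (mul_eq_zero.1 h2).resolve_left ?_
        rw [V5helper77.KSC.tq]
        intro h3
        exact M.hB.ne i hio hip ((algebraMap T.W.K ℂ).injective (h3.trans (map_zero _).symm))
      · intro j _ hj; rw [Pi.single_eq_of_ne hj]; ring
      · intro h; exact absurd (Finset.mem_univ _) h
      · rw [crd_one, Pi.single_eq_of_ne (Ne.symm hio)]
      · rw [crd_one, Pi.single_eq_of_ne (Ne.symm hip)]
    rw [h0, zero_smul]
    exact Submodule.zero_mem _

lemma split2 (hK : K3G T X Dv) {x : ℂ ⊗[T.W.K] T.W.H X} (hx : x ∈ (T.W.gr X 2).baseChange ℂ) :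
    ∃ a ∈ Fx T X (2, 0), ∃ b ∈ Fx T X (1, 1), ∃ c ∈ Fx T X (0, 2), x = a + b + c := by
  have h1 : x ∈ Fx T X (2, 0) ⊔ Fx T X (1, 1) ⊔ Fx T X (0, 2) := by
    refine base_induction (P := fun x => x ∈ Fx T X (2, 0) ⊔ Fx T X (1, 1) ⊔ Fx T X (0, 2))
      ?_ ?_ ?_ hx
    · exact Submodule.zero_mem _
    · intro a b ha hb
      exact Submodule.add_mem _ ha hb
    · intro l a ha
      have h2 := T.dec.span ha
      have h3 : (⨆ r : {r : ℤ × ℤ // r.1 + r.2 = ((2 : ℕ) : ℤ)}, T.pq X r.1.1 r.1.2) ≤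
          Fx T X (2, 0) ⊔ Fx T X (1, 1) ⊔ Fx T X (0, 2) := by
        refine iSup_le fun r => ?_
        obtain ⟨⟨p, q⟩, hr⟩ := r
        by_cases h0 : Fx T X (p, q) = ⊥
        · change Fx T X (p, q) ≤ _
          rw [h0]
          exact bot_le
        · have hr' : p + q = 2 := by exact_mod_cast hr
          obtain ⟨g1, g2, g3, g4⟩ := hK.range p q h0
          change Fx T X (p, q) ≤ _
          rcases (by omega : p = 2 ∨ p = 1 ∨ p = 0) with rfl | rfl | rfl
          · obtain rfl : q = 0 := by omega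
            exact le_sup_of_le_left le_sup_left
          · obtain rfl : q = 1 := by omega
            exact le_sup_of_le_left le_sup_right
          · obtain rfl : q = 2 := by omega
            exact le_sup_right
      have h4 : (1 : ℂ) ⊗ₜ[T.W.K] a ∈ Fx T X (2, 0) ⊔ Fx T X (1, 1) ⊔ Fx T X (0, 2) := h3 h2
      have h5 : l ⊗ₜ[T.W.K] a = l • ((1 : ℂ) ⊗ₜ[T.W.K] a) := by
        rw [TensorProduct.smul_tmul', smul_eq_mul, mul_one]
      rw [h5]
      exact Submodule.smul_mem _ _ h4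
  obtain ⟨y, hy, c, hc, h6⟩ := Submodule.mem_sup.1 h1
  obtain ⟨a, ha, b, hb, h7⟩ := Submodule.mem_sup.1 hy
  exact ⟨a, ha, b, hb, c, hc, by rw [h7, h6]⟩

/-- Classes orthogonal to the holomorphic two-form and its conjugate are of type `(1, 1)`. -/
lemma mem_mid (hK : K3G T X Dv) {x : ℂ ⊗[T.W.K] T.W.H X} (hx : x ∈ Fx T X (2, 0)) (hx0 : x ≠ 0)
    {y : ℂ ⊗[T.W.K] T.W.H X} (hy : y ∈ (T.W.gr X 2).baseChange ℂ)
    (h1 : (cupF T.W X).baseChange ℂ y x = 0)
    (h2 : (cupF T.W X).baseChange ℂ y (sig (tauT T) x) = 0) : y ∈ Fx T X (1, 1) := by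
  obtain ⟨s, hs, hxx⟩ := hK.hol x hx hx0
  have hs' : (s : ℂ) ≠ 0 := by exact_mod_cast hs.ne'
  have hsx : sig (tauT T) x ∈ Fx T X (0, 2) := hK.4 2 0 x hx
  have hxx' : (cupF T.W X).baseChange ℂ (sig (tauT T) x) x = s := by
    have h3 := cup_sig x (sig (tauT T) x)
    rw [sig_sig, hxx, Complex.conj_ofReal] at h3
    exact h3
  have hgen : ∀ z ∈ Fx T X (2, 0), ∃ c : ℂ, c • x = z := by
    intro z hz
    have hne : (⟨x, hx⟩ : Fx T X (2, 0)) ≠ 0 := fun h => hx0 (congrArg Subtype.val h)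
    obtain ⟨c, hc⟩ := (finrank_eq_one_iff_of_nonzero' _ hne).1 hK.one ⟨z, hz⟩
    exact ⟨c, congrArg Subtype.val hc⟩
  obtain ⟨a, ha, b, hb, c, hc, rfl⟩ := split2 hK hy
  obtain ⟨t, rfl⟩ := hgen a ha
  obtain ⟨t', ht'⟩ := hgen _ (hK.4 0 2 c hc)
  have hc' : c = tauT T t' • sig (tauT T) x := by
    rw [← sig_smul, ht', sig_sig]
  rw [cup_add_left, cup_add_left, cup_Fx hK ha hx (by norm_num), cup_Fx hK hb hx (by norm_num),
    hc', cup_smul_left, hxx', zero_add, zero_add] at h1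
  rw [cup_add_left, cup_add_left, cup_Fx hK hc hsx (by norm_num),
    cup_Fx hK hb hsx (by norm_num), cup_smul_left, hxx, add_zero, add_zero] at h2
  have ht0 : t = 0 := (mul_eq_zero.1 h2).resolve_right hs'
  have ht1 : tauT T t' = 0 := (mul_eq_zero.1 h1).resolve_right hs'
  rw [hc', ht0, ht1, zero_smul, zero_smul, zero_add, add_zero]
  exact hb

theorem t_K3T : S_K3T.{u} := by
  intro k _ 𝒱 ops T D X Dv hK r e he hspan P hP hdR
  have hTr : ∀ i, e i ∈ TrA T X := by
    intro i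
    rw [← hspan]
    exact Submodule.subset_span ⟨i, rfl⟩
  obtain ⟨⟨x, hx⟩, hx0, -⟩ := finrank_eq_one_iff'.1 hK.one
  have hx0' : x ≠ 0 := fun h => hx0 (Subtype.ext h)
  obtain ⟨ω, hω⟩ := exists_cv hspan (hol_mem hK hx)
  choose B hB using fun i j => T.rat (T.W.tr X (e i * e j))
  obtain ⟨s, hs, hxx⟩ := hK.hol x hx hx0'
  have hB' : ∀ i j, (((Matrix.of B : Matrix (Fin r) (Fin r) ℚ) i j : ℚ) : T.W.K) =
    T.W.tr X (e i * e j) := hB
  generalize (Matrix.of B : Matrix (Fin r) (Fin r) ℚ) = B' at hB'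
  have hbil : ∀ u v : Fin r → ℂ, (cupF T.W X).baseChange ℂ (cv e u) (cv e v) = bil B' u v :=
    cv_cup hB'
  refine ⟨K3Type.mk B' ?_ ω ?_ ?_ ?_ P hP ?_, rfl, hB', ?_⟩
  · intro i j
    have h1 : ((B' i j : ℚ) : T.W.K) = ((B' j i : ℚ) : T.W.K) := by
      rw [hB', hB', T.W.comm (hTr i).1 (hTr j).1]
      norm_num
    exact_mod_cast h1
  · rw [← hbil, hω]
    exact cup_Fx hK hx hx (by norm_num)
  · rw [← hbil, ← cv_sig, hω, hxx, Complex.ofReal_re]
    exact hs
  · intro v hv hvω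
    obtain ⟨v', hv'⟩ : ∃ v' : Fin r → ℂ, v' = fun i => (v i : ℂ) := ⟨_, rfl⟩
    have hcj : cj v' = v' := by
      funext i
      rw [hv']
      exact Complex.conj_ofReal _
    rw [← hv'] at hvω ⊢
    have hy0 : cv e v' ≠ 0 := by
      intro h
      have h1 := cv_inj he h
      apply hv
      funext i
      have h2 := congrFun h1 i
      rw [hv'] at h2
      exact Complex.ofReal_eq_zero.1 h2
    have h1 : (cupF T.W X).baseChange ℂ (cv e v') x = 0 := by rw [← hω, hbil, hvω]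
    have h2 : (cupF T.W X).baseChange ℂ (cv e v') (sig (tauT T) x) = 0 := by
      have h3 := cup_sig (cv e v') x
      rw [cv_sig, hcj, h1, map_zero] at h3
      exact h3
    have h4 := mem_mid hK hx hx0' (cv_mem (fun i => (hTr i).1) v') h1 h2
    have h5 : (cupF T.W X).baseChange ℂ (cv e v') ((1 : ℂ) ⊗ₜ[T.W.K] Dv) = 0 := by
      rw [cv, map_sum, LinearMap.sum_apply]
      refine Finset.sum_eq_zero fun i _ => ?_
      rw [cup_tmul, (hTr i).2 Dv hK.div, map_zero, mul_zero]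
    obtain ⟨t, ht, h6⟩ := hK.idx _ h4 hy0 h5
    rw [cv_sig, hcj, hbil] at h6
    rw [h6, Complex.neg_re, Complex.ofReal_re]
    linarith
  · intro i j
    have h1 := (D.form X).mul _ (hdR i) _ (hdR j)
    obtain ⟨ρ, hρ, h2⟩ := (D.form X).tr _ h1
    rw [hK.dim, Finset.sum_mul_sum, map_sum] at h2
    have h3 : ∀ a, Pool.Agent.Y133.Per.baseTr (T.W.tr X) (∑ b, tm (twoPiI * P a i) (e a) *
        tm (twoPiI * P b j) (e b)) = ∑ b, twoPiI ^ 2 * (P a i * (B' a b : ℂ) * P b j) := by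
      intro a
      rw [map_sum]
      refine Finset.sum_congr rfl fun b _ => ?_
      rw [tm_mul, baseTr_tm, ← hB', map_ratCast]
      ring
    simp only [h3] at h2
    have h4 : twoPiI ^ 2 * bil B' (fun a => P a i) (fun a => P a j) = twoPiI ^ 2 * ρ := by
      rw [← h2, bil_def, Finset.mul_sum]
      exact Finset.sum_congr rfl fun a _ => Finset.mul_sum _ _ _
    have h5 := mul_left_cancel₀ (pow_ne_zero 2 twoPiI_ne) h4
    change IsAlgebraic ℚ (bil B' (fun a => P a i) (fun a => P a j))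
    rw [h5]
    exact mem_algebraicClosure_iff.1 hρ
  · change cv e ω ∈ Fx T X (2, 0)
    rw [hω]
    exact hx

end Pool.Agent.V5helper59.GK
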